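import Pool.Agent.Q78.UW.ExLaw2
import Pool.Agent.Q78.UW.Wid

set_option autoImplicit false

/-!
# The joint law of the width, of other extents and of the area of self-avoiding polygons in a random
domain: all perimeters from sparse perimeters
-/

namespace Pool.Agent.Results.MP_c23e5f_co.JointSizes

open MeasureTheory Filter Topology

/-- the number of `n`-step self-avoiding walks on `ℤ²` started at the origin -/
noncomputable def c (n : ℕ) : ℕ :=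
  Nat.card {f : Fin (n + 1) → ℤ × ℤ // f 0 = 0 ∧ Function.Injective f ∧
    ∀ i : Fin n, |(f i.succ).1 - (f i.castSucc).1| + |(f i.succ).2 - (f i.castSucc).2| = 1}

/-- a closed nearest-neighbour loop on `ℤ²` with `m` steps that visits no vertex twice (rooted and
oriented, anywhere in the plane) -/
def IsPoly (m : ℕ) (f : ZMod m → ℤ × ℤ) : Prop :=
  Function.Injective f ∧ ∀ i : ZMod m, |(f (i + 1)).1 - (f i).1| + |(f (i + 1)).2 - (f i).2| = 1

/-- the edge from `f k` to `f (k + 1)` is horizontal, over the column `[a, a + 1]`, and above the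
height `b` -/
def Above (m : ℕ) (f : ZMod m → ℤ × ℤ) (a b : ℤ) (k : ZMod m) : Prop :=
  (((f k).1 = a ∧ (f (k + 1)).1 = a + 1) ∨ ((f k).1 = a + 1 ∧ (f (k + 1)).1 = a)) ∧ b < (f k).2

/-- the unit cell `[a, a + 1] × [b, b + 1]` is enclosed: the number of edges above it is odd -/
def Encl (m : ℕ) (f : ZMod m → ℤ × ℤ) (c : ℤ × ℤ) : Prop :=
  Odd (Nat.card {k : ZMod m // Above m f c.1 c.2 k})

/-- the area of a polygon: the number of unit cells it encloses -/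
noncomputable def area (m : ℕ) (f : ZMod m → ℤ × ℤ) : ℕ := Nat.card {c : ℤ × ℤ // Encl m f c}

/-- the extent of a polygon under a map `r` to the plane: the diameter of the image of the set of
its vertices -/
noncomputable def ext (m : ℕ) (r : ℤ × ℤ → ℂ) (f : ZMod m → ℤ × ℤ) : ℝ :=
  Metric.diam (Set.range fun i => r (f i))

/-- the width of a polygon: its extent under the first coordinate -/
noncomputable def width (m : ℕ) (f : ZMod m → ℤ × ℤ) : ℝ := ext m (fun x => ((x.1 : ℝ) : ℂ)) f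

/-- maps which are one-Lipschitz for the graph distance of `ℤ²` -/
def Lip (r : ℤ × ℤ → ℂ) : Prop :=
  ∀ x y : ℤ × ℤ, ‖r x - r y‖ ≤ ((|x.1 - y.1| + |x.2 - y.2| : ℤ) : ℝ)

/-- the sizes of a polygon: the area, and `max 1` of its extents under the maps `r₁, …, r_j` -/
noncomputable def size {j : ℕ} (r : Fin j → ℤ × ℤ → ℂ) (m : ℕ) (f : ZMod m → ℤ × ℤ) :
    Fin (j + 1) → ℝ := Fin.cons (area m f : ℝ) fun i => max 1 (ext m (r i) f)

/-- test functions of several positive variables: bounded by one, and Lipschitz in the logarithms -/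
def Test {k : ℕ} (L : ℝ) (g : (Fin k → ℝ) → ℝ) : Prop :=
  (∀ x, |g x| ≤ 1) ∧ ∀ x y, (∀ i, 0 < x i) → (∀ i, 0 < y i) →
    |g x - g y| ≤ L * ∑ i, |Real.log (x i) - Real.log (y i)|

variable {Ω : Type} [MeasurableSpace Ω]

/-- the mean number of loops with `2n` steps rooted at the origin in a random domain with law `ν`
(each polygon through the origin gives two of them) -/
noncomputable def F (ν : Measure Ω) (D : Ω → ℤ × ℤ → Prop) (n : ℕ) : ℝ :=
  ∫ ω, (Nat.card {f : ZMod (2 * n) → ℤ × ℤ //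
    (f 0 = 0 ∧ IsPoly (2 * n) f) ∧ ∀ i, D ω (f i)} : ℝ) ∂ν

/-- the mean of the sum of `g (size)` over these loops; the function may be random -/
noncomputable def H (ν : Measure Ω) (D : Ω → ℤ × ℤ → Prop) {j : ℕ} (r : Fin j → ℤ × ℤ → ℂ)
    (g : Ω → (Fin (j + 1) → ℝ) → ℝ) (n : ℕ) : ℝ :=
  ∫ ω, (∑ᶠ f : {f : ZMod (2 * n) → ℤ × ℤ // (f 0 = 0 ∧ IsPoly (2 * n) f) ∧ ∀ i, D ω (f i)},
    g ω (size r (2 * n) f.1)) ∂ν

/-- the mean of the size `i` of the polygons in the domain -/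
noncomputable def M (ν : Measure Ω) (D : Ω → ℤ × ℤ → Prop) {j : ℕ} (r : Fin j → ℤ × ℤ → ℂ)
    (i : Fin (j + 1)) (n : ℕ) : ℝ :=
  H ν D r (fun _ x => x i) n / F ν D n

/-- random domains -/
def IsDomain (D : Ω → ℤ × ℤ → Prop) : Prop := ∀ x, MeasurableSet {ω | D ω x}

/-- random test functions -/
def IsTest {k : ℕ} (L : ℝ) (g : Ω → (Fin k → ℝ) → ℝ) : Prop :=
  (∀ ω, Test L (g ω)) ∧ ∀ x, Measurable fun ω => g ω x

/-- the normalised mean number of loops -/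
noncomputable def Y (μ : ℝ) (ν : Measure Ω) (D : Ω → ℤ × ℤ → Prop) (n : ℕ) : ℝ :=
  F ν D n / μ ^ (2 * n)

/-- logarithms of normalisations, such as `β log n + a` -/
def IsSlow (ψ : ℕ → ℝ) : Prop :=
  ∃ B : ℝ, ∀ m n : ℕ, 1 ≤ m → m ≤ n → |ψ n - ψ m| ≤ B * (((n : ℝ) - m) / m)

/-- `S` meets `[n, n + δ √n]` for all large `n` -/
def Meets (S : Set ℕ) (δ : ℝ) : Prop :=
  ∀ᶠ n : ℕ in atTop, ∃ k ∈ S, n ≤ k ∧ (k : ℝ) ≤ n + δ * √n

open TH966.AK Q78.UW Q78.UW.Po Pool.Agent.H924P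

lemma c_eq (n : ℕ) : (c n : ℝ) = H981.cr' n := by
  rw [H981.cr'_eq]
  unfold c H981.C H981.IsSAW
  congr 1
  apply Nat.card_congr
  apply Equiv.subtypeEquivRight
  intro f
  constructor
  · rintro ⟨h0, h1, h2⟩
    exact ⟨h0, h2, h1⟩
  · rintro ⟨h0, h2, h1⟩
    exact ⟨h0, h1, h2⟩

lemma F_eq (ν : Measure Ω) (D : Ω → ℤ × ℤ → Prop) {n : ℕ} (hn : 1 ≤ n) :
    F ν D n = Fp ν D n := by
  unfold F Fp Q78.UR.FF
  congr 1
  funext ω
  rw [← root_card' (2 * n) (2 * n - 1) (by omega) (D ω)]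
  rfl

lemma Y_eq (ν : Measure Ω) (D : Ω → ℤ × ℤ → Prop) {n : ℕ} (hn : 1 ≤ n) :
    Y H981.mu ν D n = Yp ν D n := by
  unfold Y Yp
  rw [F_eq ν D hn]

lemma area_eq (m : ℕ) (f : ZMod m → ℤ × ℤ) : area m f = Pool.Agent.H924P.area m f := rfl

/-- the sizes as weights -/
noncomputable def fam {j : ℕ} (r : Fin j → ℤ × ℤ → ℂ) : Fin (j + 1) → List (ℤ × ℤ) → ℝ :=
  Fin.cons (aq 1) fun i w => max 1 (Q294.Av.dm Q294.Av.FcT (r i) w)

/-- the constant of the weights -/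
noncomputable def kf : ℝ := max (kq 1) (2 * Q78.UR.Sq.rule.c0)

lemma kf_nonneg : 0 ≤ kf := le_max_of_le_left (kq_nonneg 1)

lemma fam_pol {j : ℕ} {r : Fin j → ℤ × ℤ → ℂ} (hr : ∀ i, Lip (r i)) (i : Fin (j + 1)) :
    Fpol kf 3 (fam r i) := by
  intro D
  refine Fin.cases ?_ (fun i => ?_) i
  · exact fr_mono (fr_aq 1 1 zero_le_one (by norm_num) D) (le_max_left _ _) le_rfl
  · have h := fr_of_fw (fw_max (r i) (hr i) 1 1 zero_le_one (by norm_num)) (RD D)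
    have e : (fun w => (max 1 (Q294.Av.dm Q294.Av.FcT (r i) w)) ^ (1 : ℝ)) = fam r i.succ := by
      funext w
      rw [Real.rpow_one]
      rfl
    rw [e] at h
    exact fr_mono h (le_max_right _ _) (by norm_num)

lemma fam_ofFn {j : ℕ} (r : Fin j → ℤ × ℤ → ℂ) (k : ℕ) (g : Fin (k + 1) → ℤ × ℤ) :
    (fun i => fam r i (List.ofFn g)) = Fin.cons (max 1 (Pool.Agent.H924P.area (k + 1) g : ℝ))
      (fun i => max 1 (Po.ext (k + 1) (r i) g)) := by
  funext i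
  refine Fin.cases ?_ (fun i => ?_) i
  · show aq 1 (List.ofFn g) = _
    unfold aq
    rw [arP_ofFn, Real.rpow_one]
    rfl
  · show max 1 (Q294.Av.dm Q294.Av.FcT (r i) (List.ofFn g)) = _
    rw [← ext_eq]
    rfl

lemma H_eq (ν : Measure Ω) (D : Ω → ℤ × ℤ → Prop) {j : ℕ} (r : Fin j → ℤ × ℤ → ℂ)
    (g : Ω → (Fin (j + 1) → ℝ) → ℝ) {n : ℕ} (hn : 2 ≤ n) :
    H ν D r g n = XX Q78.UR.Sq.A ν (fun ω => RD (D ω)) (tw (fam r) fun ω _ => g ω)
      (2 * n - 1) := by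
  unfold H XX
  congr 1
  funext ω
  rw [← root_sum (2 * n) (2 * n - 1) (by omega) (D ω)
    (fun m f => g ω (Fin.cons (max 1 (Pool.Agent.H924P.area m f : ℝ))
      (fun i => max 1 (Po.ext m (r i) f))))
    (tw (fam r) (fun ω _ => g ω) ω) (fun k f => by
      unfold tw
      rw [fam_ofFn])]
  have e : ∀ f : {f : ZMod (2 * n) → ℤ × ℤ // (f 0 = 0 ∧ IsPoly (2 * n) f) ∧ ∀ i, D ω (f i)},
      g ω (size r (2 * n) f.1) = g ω (Fin.cons (max 1 (Pool.Agent.H924P.area (2 * n) f.1 : ℝ))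
      (fun i => max 1 (Po.ext (2 * n) (r i) f.1))) := by
    intro f
    have h1 : 1 ≤ Pool.Agent.H924P.area (2 * n) f.1 := one_le_area (by omega) f.2.1.2
    rw [max_eq_right (by exact_mod_cast h1)]
    rfl
  rw [finsum_congr e]
  rfl

lemma Gp_eq (ν : Measure Ω) (D' D : Ω → ℤ × ℤ → Prop) {j : ℕ} (r : Fin j → ℤ × ℤ → ℂ)
    (g : Ω → (Fin (j + 1) → ℝ) → ℝ) {n : ℕ} (hn : 2 ≤ n) :
    H ν D' r g n / F ν D n = Gp ν D' D (fam r) g n := by
  unfold Gp
  rw [H_eq ν D' r g hn, F_eq ν D (by omega)]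

lemma M_eq (ν : Measure Ω) (D : Ω → ℤ × ℤ → Prop) {j : ℕ} (r : Fin j → ℤ × ℤ → ℂ) {n : ℕ}
    (hn : 2 ≤ n) (i : Fin (j + 1)) : Mp ν D (fam r i) n = M ν D r i n := by
  unfold M Mp
  rw [H_eq ν D r _ hn, F_eq ν D (by omega)]
  rfl

lemma gap_of {S : Set ℕ} {δ : ℝ} (h : Meets S δ) : Q78.Z3.Gap S δ (fun _ => 1) := by
  filter_upwards [h] with n hn
  obtain ⟨k, h1, h2, h3⟩ := hn
  exact ⟨k, h1, h2, by rwa [mul_one]⟩

lemma lip_fst : Lip (fun x => ((x.1 : ℝ) : ℂ)) := by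
  intro x y
  rw [← Complex.ofReal_sub, Complex.norm_real, Real.norm_eq_abs]
  have h : |x.1 - y.1| ≤ |x.1 - y.1| + |x.2 - y.2| := by
    have := abs_nonneg (x.2 - y.2)
    linarith
  calc |(x.1 : ℝ) - y.1| = ((|x.1 - y.1| : ℤ) : ℝ) := by push_cast; rfl
    _ ≤ _ := by exact_mod_cast h

/-- **Main result.** -/
theorem result : (∀ β a : ℝ, IsSlow (fun n => β * Real.log n + a)) ∧
    Lip (fun x => ((x.1 : ℝ) : ℂ)) ∧ (∀ m, 3 ≤ m → ∀ f, IsPoly m f → 1 ≤ width m f) ∧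
    ∃ μ : ℝ, 0 < μ ∧ Tendsto (fun n : ℕ => (c n : ℝ) ^ ((1 : ℝ) / n)) atTop (𝓝 μ) ∧
    ∀ (j : ℕ) (L : ℝ), 0 ≤ L → ∀ (Ω : Type) [MeasurableSpace Ω] (ν : Measure Ω)
      [IsProbabilityMeasure ν] (D : Ω → ℤ × ℤ → Prop), IsDomain D →
      ∀ (S : Set ℕ) (ψ : ℕ → ℝ), IsSlow ψ →
      (∀ K d : ℝ, 0 < d → Meets S d →
        (∀ᶠ n in atTop, n ∈ S → 0 < Y μ ν D n ∧ |Real.log (Y μ ν D n) - ψ n| ≤ K) →
        -- numbers and joint laws
        (∃ C : ℝ, ∀ᶠ n : ℕ in atTop, 0 < F ν D n ∧ 0 < F ν D (n + 1) ∧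
          |F ν D (n + 1) / (μ ^ 2 * F ν D n) - 1| ≤ C / √n ∧
          ∀ r : Fin j → ℤ × ℤ → ℂ, (∀ i, Lip (r i)) →
          ∀ D' : Ω → ℤ × ℤ → Prop, IsDomain D' → (∀ ω x, D' ω x → D ω x) → ∀ g, IsTest L g →
            |H ν D' r g (n + 1) / F ν D (n + 1) - H ν D' r g n / F ν D n| ≤ C / √n) ∧
        -- the means of the sizes and the joint laws of the normalised sizes
        ∀ r : Fin j → ℤ × ℤ → ℂ, (∀ i, Lip (r i)) → ∀ φ : Fin (j + 1) → ℕ → ℝ,
          (∀ i, IsSlow (φ i)) →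
          (∀ i, ∀ᶠ n in atTop, n ∈ S → |Real.log (M ν D r i n) - φ i n| ≤ K) →
          ∃ C : ℝ, ∀ᶠ n : ℕ in atTop, (∀ i, 0 < M ν D r i n ∧ 0 < M ν D r i (n + 1) ∧
            |M ν D r i (n + 1) / M ν D r i n - 1| ≤ C / √n) ∧
            ∀ D' : Ω → ℤ × ℤ → Prop, IsDomain D' → (∀ ω x, D' ω x → D ω x) → ∀ g, IsTest L g →
              |H ν D' r (fun ω x => g ω fun i => x i / M ν D r i (n + 1)) (n + 1) /
                  F ν D (n + 1) -
                H ν D' r (fun ω x => g ω fun i => x i / M ν D r i n) n / F ν D n| ≤ C / √n) ∧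
      -- limits
      ((∀ δ : ℝ, 0 < δ → Meets S δ) →
        Tendsto (fun n => Y μ ν D n / Real.exp (ψ n)) (atTop ⊓ 𝓟 S) (𝓝 1) →
        ∀ r : Fin j → ℤ × ℤ → ℂ, (∀ i, Lip (r i)) → ∀ φ : Fin (j + 1) → ℕ → ℝ,
        (∀ i, IsSlow (φ i)) →
        (∀ i, Tendsto (fun n => M ν D r i n / Real.exp (φ i n)) (atTop ⊓ 𝓟 S) (𝓝 1)) →
        Tendsto (fun n => Y μ ν D n / Real.exp (ψ n)) atTop (𝓝 1) ∧
        (∀ i, Tendsto (fun n => M ν D r i n / Real.exp (φ i n)) atTop (𝓝 1)) ∧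
        ∀ D' : Ω → ℤ × ℤ → Prop, IsDomain D' → (∀ ω x, D' ω x → D ω x) → ∀ g, IsTest L g →
          ∀ ℓ : ℝ, Tendsto (fun n => H ν D' r (fun ω x => g ω fun i => x i / M ν D r i n) n /
            F ν D n) (atTop ⊓ 𝓟 S) (𝓝 ℓ) →
          Tendsto (fun n => H ν D' r (fun ω x => g ω fun i => x i / M ν D r i n) n / F ν D n)
            atTop (𝓝 ℓ)) := by
  refine ⟨fun β a => Q78.Z3.slow_log β a, lip_fst, fun m hm f hf => one_le_width m hm f hf,
    H981.mu, H981.mu_pos, ?_, fun j L hL => ?_⟩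
  · simp only [c_eq]
    exact H981.tendsto_root
  intro Ω _ ν _ D hD S ψ hψ
  have hκ := kf_nonneg
  have hY : ∀ᶠ n : ℕ in atTop, Yp ν D n = Y H981.mu ν D n := by
    filter_upwards [eventually_ge_atTop 1] with n hn
    exact (Y_eq ν D hn).symm
  have hB : ∀ r : Fin j → ℤ × ℤ → ℂ, ∀ i, ∀ᶠ n : ℕ in atTop,
      Mp ν D (fam r i) n = M ν D r i n := fun r i => by
    filter_upwards [eventually_ge_atTop 2] with n hn
    exact M_eq ν D r hn i
  have hk' : ∀ K : ℝ, (∀ᶠ n in atTop, n ∈ S → 0 < Y H981.mu ν D n ∧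
      |Real.log (Y H981.mu ν D n) - ψ n| ≤ K) →
      ∀ᶠ n in atTop, n ∈ S → 0 < Yp ν D n ∧ |Real.log (Yp ν D n) - ψ n| ≤ K := by
    intro K hk
    filter_upwards [hk, hY] with n hn hn1 hnS
    rw [hn1]
    exact hn hnS
  refine ⟨fun K d hd hS hk => ⟨?_, fun r hr φ hφ hk1 => ?_⟩, fun hS hl r hr φ hφ hl' => ?_⟩
  · obtain ⟨C, hC, h⟩ := shape_law (j + 1) 3 kf hκ L hL ν hD hψ hd (gap_of hS) (hk' K hk)
    refine ⟨C, ?_⟩
    filter_upwards [h, eventually_ge_atTop 2] with n hn hn2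
    obtain ⟨g1, g2, g3, g4⟩ := hn
    rw [F_eq ν D (by omega), F_eq ν D (by omega)]
    refine ⟨g1, g2, g3, fun r hr D' hD' hsub g hg => ?_⟩
    have g5 := g4 (fam r) (fam_pol hr) D' hD' hsub g hg.1 hg.2
    rw [← Gp_eq ν D' D r g hn2, ← Gp_eq ν D' D r g (show 2 ≤ n + 1 by omega),
      F_eq ν D (by omega), F_eq ν D (by omega)] at g5
    exact g5
  · obtain ⟨C, hC, h⟩ := shape_main (f := fam r) (φ := φ) (K1 := K) (j + 1) 3 kf hκ L
      hL ν hD hψ hd (gap_of hS) (hk' K hk) (fam_pol hr) hφ (fun i => by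
        filter_upwards [hk1 i, hB r i] with n hn hn1 hnS
        rw [hn1]
        exact hn hnS)
    refine ⟨C, ?_⟩
    filter_upwards [h, eventually_ge_atTop 2] with n hn hn2
    obtain ⟨g1, g2⟩ := hn
    simp only [M_eq ν D r hn2, M_eq ν D r (show 2 ≤ n + 1 by omega)] at g1 g2
    refine ⟨g1, fun D' hD' hsub g hg => ?_⟩
    rw [Gp_eq ν D' D r _ hn2, Gp_eq ν D' D r _ (show 2 ≤ n + 1 by omega)]
    exact g2 D' hD' hsub g hg.1 hg.2
  · have hl1 : Tendsto (fun n => Yp ν D n / Real.exp (ψ n)) (atTop ⊓ 𝓟 S) (𝓝 1) := hl.congr' (by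
      filter_upwards [hY.filter_mono inf_le_left] with n hn
      rw [hn])
    obtain ⟨g1, g2, g3⟩ := shape_lim (f := fam r) (φ := φ) (j + 1) 3 kf hκ L hL ν hD
      hψ (fun δ hδ => gap_of (hS δ hδ)) hl1 (fam_pol hr) hφ (fun i => (hl' i).congr' (by
        filter_upwards [(hB r i).filter_mono inf_le_left] with n hn
        rw [hn]))
    refine ⟨g1.congr' ?_, fun i => (g2 i).congr' ?_, fun D' hD' hsub g hg ℓ hlim => ?_⟩
    · filter_upwards [hY] with n hn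
      rw [hn]
    · filter_upwards [hB r i] with n hn
      rw [hn]
    · have e : ∀ᶠ n : ℕ in atTop, H ν D' r (fun ω x => g ω fun i => x i / M ν D r i n) n /
          F ν D n = Gp ν D' D (fam r) (fun ω x => g ω fun i => x i / Mp ν D (fam r i) n) n := by
        filter_upwards [eventually_ge_atTop 2] with n hn
        rw [Gp_eq ν D' D r _ hn]
        simp only [M_eq ν D r hn]
      refine (g3 D' hD' hsub g hg.1 hg.2 ℓ
        (hlim.congr' (e.filter_mono inf_le_left))).congr' ?_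
      filter_upwards [e] with n hn
      exact hn.symm

end Pool.Agent.Results.MP_c23e5f_co.JointSizes
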