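import Pool.Agent.Q294.Tp5

/-!
Self-avoiding polygons of different perimeters on the square lattice can be coupled so that with
high probability they follow each other within a bounded distance and have the same extents in given
directions; rare events and conditional laws.
-/

set_option autoImplicit false

namespace Pool.Agent.Results.MP_c23e5f_co.ShapeCoupling

/-- a closed nearest-neighbour loop on `ℤ²` with `m` steps, rooted at the origin and oriented,
that visits no vertex twice -/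
def IsLoop (m : ℕ) (f : ZMod m → ℤ × ℤ) : Prop :=
  f 0 = 0 ∧ Function.Injective f ∧
    ∀ i : ZMod m, |(f (i + 1)).1 - (f i).1| + |(f (i + 1)).2 - (f i).2| = 1

/-- The loops with `m` steps: the self-avoiding polygons of perimeter `m` up to translation, with
one of the `m` vertices as a root and one of the two orientations. -/
abbrev Loop (m : ℕ) : Type := {f : ZMod m → ℤ × ℤ // IsLoop m f}

/-- `x` and `y` differ by at most `r` in each coordinate. -/
def Near (r : ℕ) (x y : ℤ × ℤ) : Prop := |x.1 - y.1| ≤ r ∧ |x.2 - y.2| ≤ r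

/-- The loops `f` (with `m` steps) and `g` (with `m'` steps) pass through common vertices in the same
order, from the root back to the root, and from each common vertex to the next one both stay near it:
the coordinates differ by at most `r`. -/
def Follow (r : ℕ) {m m' : ℕ} (f : ZMod m → ℤ × ℤ) (g : ZMod m' → ℤ × ℤ) : Prop :=
  ∃ (k : ℕ) (t t' : ℕ → ℕ), Monotone t ∧ Monotone t' ∧ t 0 = 0 ∧ t' 0 = 0 ∧ t k = m ∧ t' k = m' ∧
    (∀ j, j ≤ k → f (t j) = g (t' j)) ∧
    ∀ j, j < k → (∀ i : ℕ, t j ≤ i → i ≤ t (j + 1) → Near r (f i) (f (t j))) ∧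
      (∀ i : ℕ, t' j ≤ i → i ≤ t' (j + 1) → Near r (g i) (g (t' j)))

/-- The steps of the loop `f` which touch the set `D`, in their order. -/
def stepsOf (D : Finset (ℤ × ℤ)) {m : ℕ} (f : ZMod m → ℤ × ℤ) : List ((ℤ × ℤ) × (ℤ × ℤ)) :=
  ((List.range m).map fun i : ℕ => (f (i : ZMod m), f ((i + 1 : ℕ) : ZMod m))).filter
    (fun e => e.1 ∈ D ∨ e.2 ∈ D)

/-- The extent of `f` in the direction `v`: the largest value of `v · (f i - f j)`. For `v = (1, 0)`
this is the width. -/
noncomputable def extent (v : ℤ × ℤ) {m : ℕ} (f : ZMod m → ℤ × ℤ) : ℤ :=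
  ⨆ p : ZMod m × ZMod m, (v.1 * ((f p.1).1 - (f p.2).1) + v.2 * ((f p.1).2 - (f p.2).2))

/-- The maximum of the function `F` on the loop `f`. -/
noncomputable def maxOn {m : ℕ} (F : ℤ × ℤ → ℤ) (f : ZMod m → ℤ × ℤ) : ℤ := ⨆ i, F (f i)

/-- `q` is a joint law of a uniform loop with `m` steps and a uniform loop with `m'` steps. -/
def Coupling {m m' : ℕ} (q : Loop m → Loop m' → ℝ) : Prop :=
  (∀ f g, 0 ≤ q f g) ∧ (∀ f, ∑ᶠ g, q f g = 1 / Nat.card (Loop m)) ∧
    ∀ g, ∑ᶠ f, q f g = 1 / Nat.card (Loop m')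

open scoped Classical in
/-- The probability of `R` under the joint law `q`. -/
noncomputable def mass {m m' : ℕ} (q : Loop m → Loop m' → ℝ) (R : Loop m → Loop m' → Prop) : ℝ :=
  ∑ᶠ f, ∑ᶠ g, if R f g then q f g else 0

/-- The data of a loop: its steps which touch `D`, the maxima of the functions `F u`, the extents in
the directions `v u`. -/
noncomputable def data (D : Finset (ℤ × ℤ)) {m : ℕ} (F : Fin m → ℤ × ℤ → ℤ) (v : Fin m → ℤ × ℤ)
    {k : ℕ} (f : ZMod k → ℤ × ℤ) : List ((ℤ × ℤ) × (ℤ × ℤ)) × (Fin m → ℤ) × (Fin m → ℤ) :=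
  (stepsOf D f, fun u => maxOn (F u) f, fun u => extent (v u) f)

/-- The proportion of the loops with `2 n` steps which have a property. -/
noncomputable def prob (n : ℕ) (E : (ZMod (2 * n) → ℤ × ℤ) → Prop) : ℝ :=
  ({f | IsLoop (2 * n) f ∧ E f}.ncard : ℝ) / ({f | IsLoop (2 * n) f ∧ True}.ncard : ℝ)

/-- The error for an event of probability `p`. -/
noncomputable def err (p : ℝ) (n : ℕ) : ℝ := √((Real.log n ^ 2 + Real.log (1 / p)) / n)

theorem Follow.mono {r r' : ℕ} (hr : r ≤ r') {m m' : ℕ} {f : ZMod m → ℤ × ℤ}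
    {g : ZMod m' → ℤ × ℤ} (h : Follow r f g) : Follow r' f g := by
  obtain ⟨k, t, t', h1, h2, h3, h4, h5, h6, h7, h8⟩ := h
  have hr' : (r : ℤ) ≤ r' := by exact_mod_cast hr
  exact ⟨k, t, t', h1, h2, h3, h4, h5, h6, h7, fun j hj =>
    ⟨fun i a b => ⟨((h8 j hj).1 i a b).1.trans hr', ((h8 j hj).1 i a b).2.trans hr'⟩,
      fun i a b => ⟨((h8 j hj).2 i a b).1.trans hr', ((h8 j hj).2 i a b).2.trans hr'⟩⟩⟩

theorem num_div {k : ℕ} (A B C : (ZMod k → ℤ × ℤ) → Prop)
    (hC : 0 < ({f | IsLoop k f ∧ C f}.ncard : ℝ)) :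
    ({f | IsLoop k f ∧ A f}.ncard : ℝ) / ({f | IsLoop k f ∧ C f}.ncard : ℝ) /
      (({f | IsLoop k f ∧ B f}.ncard : ℝ) / ({f | IsLoop k f ∧ C f}.ncard : ℝ)) =
    ({f | IsLoop k f ∧ A f}.ncard : ℝ) / ({f | IsLoop k f ∧ B f}.ncard : ℝ) := by
  rw [div_div_div_cancel_right₀ hC.ne']

/-- **Theorem.** There is a number `c`, and for every `m` there is `K > 0`, such that for `n ≥ 2`,
every set `D` of at most `n / c` vertices, all integer-valued functions `F_1, ..., F_m` on `ℤ²` and
all integer vectors `v_1, ..., v_m`: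
(1) for every `j ≥ 0` there is a coupling of a uniform rooted oriented self-avoiding polygon `f` of
perimeter `2 n` with a uniform rooted oriented self-avoiding polygon `g` of perimeter `2 (n + j)` such
that with probability at least `1 - K j log n / √n` they follow each other within distance `c`, make
the same steps which touch `D`, have the same maxima of the `F_u` and the same extents in the
directions `v_u`;
(2) for every set `S₀` of values of the data (steps which touch `D`, maxima of the `F_u`, extents in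
the directions `v_u`) with `p = P_{2n}(data ∈ S₀) > 0` and `e = K √((log² n + log (1/p)) / n)`:
`|P_{2n+2}(data ∈ S₀) / p - 1| ≤ e` whenever `e ≤ 1`, and
`|P_{2n+2}(data ∈ S | data ∈ S₀) - P_{2n}(data ∈ S | data ∈ S₀)| ≤ e` for all `S ⊆ S₀`. -/
theorem result : ∃ c : ℕ, ∀ m : ℕ, ∃ K : ℝ, 0 < K ∧
    ∀ (n : ℕ) (D : Finset (ℤ × ℤ)) (F : Fin m → ℤ × ℤ → ℤ) (v : Fin m → ℤ × ℤ), 2 ≤ n →
      c * D.card ≤ n →
      (∀ j : ℕ, ∃ q : Loop (2 * n) → Loop (2 * (n + j)) → ℝ, Coupling q ∧
        1 - K * j * (Real.log n / √(n : ℝ)) ≤ mass q (fun f g => Follow c f.1 g.1 ∧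
          stepsOf D f.1 = stepsOf D g.1 ∧ (∀ u, maxOn (F u) f.1 = maxOn (F u) g.1) ∧
            ∀ u, extent (v u) f.1 = extent (v u) g.1)) ∧
      ∀ (S₀ : Set (List ((ℤ × ℤ) × (ℤ × ℤ)) × (Fin m → ℤ) × (Fin m → ℤ))) (p : ℝ),
        p = prob n (fun f => data D F v f ∈ S₀) → 0 < p →
        (K * err p n ≤ 1 →
          |prob (n + 1) (fun f => data D F v f ∈ S₀) / p - 1| ≤ K * err p n) ∧
        ∀ S ⊆ S₀, |prob (n + 1) (fun f => data D F v f ∈ S) /
            prob (n + 1) (fun f => data D F v f ∈ S₀) -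
          prob n (fun f => data D F v f ∈ S) / prob n (fun f => data D F v f ∈ S₀)| ≤
            K * err p n := by
  obtain ⟨c1, h1⟩ := Q294.Tp.couple_loops
  obtain ⟨c2, h2⟩ := Q294.Tp.rare_loops
  refine ⟨c1 + c2, fun m => ?_⟩
  obtain ⟨R1, hR1, g1⟩ := h1 m
  obtain ⟨R2, hR2, g2⟩ := h2 m
  refine ⟨4 * R1 + R2, by positivity, fun n D F v hn hD => ⟨fun j => ?_, fun S₀ p hp hp0 => ?_⟩⟩
  · obtain ⟨k, hk⟩ : ∃ k, k = 2 * n - 1 := ⟨_, rfl⟩
    have hD' : c1 * D.card ≤ k := by
      have h3 : c1 * D.card ≤ (c1 + c2) * D.card := Nat.mul_le_mul_right _ (by omega)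
      omega
    obtain ⟨q, hq, hm⟩ := g1 k j D F v (by omega) (by omega) hD'
    have hlog : R1 * j * (Real.log k / √(k : ℝ)) ≤ (4 * R1 + R2) * j * (Real.log n / √(n : ℝ)) := by
      have h3 := Q294.Ts.gg_le hn (show n ≤ k by omega)
      have h4 : 0 ≤ Real.log n / √(n : ℝ) := by
        have := (Q294.Tr.log_facts hn).2.1
        positivity
      have h5 : R1 * j * (Real.log k / √(k : ℝ)) ≤ R1 * j * (4 * (Real.log n / √(n : ℝ))) :=
        mul_le_mul_of_nonneg_left h3 (by positivity)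
      have h6 : 0 ≤ R2 * j * (Real.log n / √(n : ℝ)) := by positivity
      linarith
    have e1 : 2 * n = k + 1 := by omega
    have e2 : 2 * (n + j) = k + 2 * j + 1 := by omega
    rw [e1, e2]
    refine ⟨q, hq, ?_⟩
    refine le_trans (by linarith) (hm.trans ?_)
    exact Q294.Tp.mass_mono (n := k) (n' := k + 2 * j) hq.1 fun x y hxy =>
      ⟨Follow.mono (r := c1) (by omega) hxy.1, hxy.2⟩
  · obtain ⟨k, hk⟩ : ∃ k, k = 2 * n - 1 := ⟨_, rfl⟩
    have hD' : c2 * D.card ≤ n := by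
      have h3 : c2 * D.card ≤ (c1 + c2) * D.card := Nat.mul_le_mul_right _ (by omega)
      omega
    have e1 : 2 * n = k + 1 := by omega
    have e2 : 2 * (n + 1) = k + 2 + 1 := by omega
    have her : R2 * err p n ≤ (4 * R1 + R2) * err p n :=
      mul_le_mul_of_nonneg_right (by linarith) (Real.sqrt_nonneg _)
    unfold prob at hp ⊢
    rw [e2]
    rw [e1] at hp ⊢
    obtain ⟨⟨p1, p2⟩, k1, k2⟩ := g2 n k D F v S₀ p hn (by omega) hD' hp hp0
    refine ⟨fun hle => (k1 (her.trans hle)).trans her, fun S hS => ?_⟩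
    rw [num_div _ _ _ p1, num_div _ _ _ p2]
    exact (k2 S hS).trans her

end Pool.Agent.Results.MP_c23e5f_co.ShapeCoupling
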