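import Pool.Agent.Q78.UW.Wid

set_option autoImplicit false

/-!
# The width of self-avoiding polygons on the square lattice in a finite region or a random domain
-/

namespace Pool.Agent.Results.MP_c23e5f_co.WidthInRegions

open MeasureTheory Filter Topology

/-- a closed nearest-neighbour loop on `ℤ²` with `m` steps that visits no vertex twice (rooted and
oriented, anywhere in the plane) -/
def IsPoly (m : ℕ) (f : ZMod m → ℤ × ℤ) : Prop :=
  Function.Injective f ∧ ∀ i : ZMod m, |(f (i + 1)).1 - (f i).1| + |(f (i + 1)).2 - (f i).2| = 1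

/-- the extent of a polygon under a map `c` to the plane: the diameter of the image of the set of
its vertices -/
noncomputable def ext (m : ℕ) (c : ℤ × ℤ → ℂ) (f : ZMod m → ℤ × ℤ) : ℝ :=
  Metric.diam (Set.range fun i => c (f i))

/-- the width of a polygon: its extent under the first coordinate -/
noncomputable def width (m : ℕ) (f : ZMod m → ℤ × ℤ) : ℝ := ext m (fun x => ((x.1 : ℝ) : ℂ)) f

/-- the number of self-avoiding polygons of perimeter `2n` on `ℤ²` up to translation: the number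
of loops with `2n` steps rooted at the origin, divided by `4n` (the choices of the starting point
and of the orientation) -/
noncomputable def p (n : ℕ) : ℝ :=
  (Nat.card {f : ZMod (2 * n) → ℤ × ℤ // f 0 = 0 ∧ IsPoly (2 * n) f} : ℝ) / (4 * (n : ℝ))

/-- the number of self-avoiding polygons of perimeter `2n` with all their vertices in `Λ` -/
noncomputable def N (Λ : Finset (ℤ × ℤ)) (n : ℕ) : ℝ :=
  (Nat.card {f : ZMod (2 * n) → ℤ × ℤ // IsPoly (2 * n) f ∧ ∀ i, f i ∈ Λ} : ℝ) / (4 * (n : ℝ))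

/-- the number of those with `(ext c₁, …, ext c_m) ∈ S` -/
noncomputable def NE (Λ : Finset (ℤ × ℤ)) {m : ℕ} (c : Fin m → ℤ × ℤ → ℂ) (S : Set (Fin m → ℝ))
    (n : ℕ) : ℝ :=
  (Nat.card {f : ZMod (2 * n) → ℤ × ℤ // (IsPoly (2 * n) f ∧ ∀ i, f i ∈ Λ) ∧
    (fun j => ext (2 * n) (c j) f) ∈ S} : ℝ) / (4 * (n : ℝ))

/-- the mean of the `q`-th power of the width of the polygons of perimeter `2n` in `Λ` -/
noncomputable def W (Λ : Finset (ℤ × ℤ)) (q : ℝ) (n : ℕ) : ℝ :=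
  (∑ᶠ f : {f : ZMod (2 * n) → ℤ × ℤ // IsPoly (2 * n) f ∧ ∀ i, f i ∈ Λ},
    width (2 * n) f.1 ^ q) / Nat.card {f : ZMod (2 * n) → ℤ × ℤ // IsPoly (2 * n) f ∧ ∀ i, f i ∈ Λ}

/-- the mean of the `q`-th power of `max 1 (ext c)` -/
noncomputable def M (Λ : Finset (ℤ × ℤ)) (c : ℤ × ℤ → ℂ) (q : ℝ) (n : ℕ) : ℝ :=
  (∑ᶠ f : {f : ZMod (2 * n) → ℤ × ℤ // IsPoly (2 * n) f ∧ ∀ i, f i ∈ Λ},
    (max 1 (ext (2 * n) c f.1)) ^ q) /
      Nat.card {f : ZMod (2 * n) → ℤ × ℤ // IsPoly (2 * n) f ∧ ∀ i, f i ∈ Λ}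

/-- maps which are one-Lipschitz for the graph distance of `ℤ²` -/
def Lip (c : ℤ × ℤ → ℂ) : Prop :=
  ∀ x y : ℤ × ℤ, ‖c x - c y‖ ≤ ((|x.1 - y.1| + |x.2 - y.2| : ℤ) : ℝ)

/-- the size of the error for the region `Λ` -/
noncomputable def err (Λ : Finset (ℤ × ℤ)) (n : ℕ) : ℝ :=
  √((Real.log (Λ.card * p n / N Λ n) + Real.log n ^ 2) / n)

variable {Ω : Type} [MeasurableSpace Ω]

/-- the probability that the uniform polygon of perimeter `2n` rooted at the origin lies in an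
independent random domain with law `ν` -/
noncomputable def Q (ν : Measure Ω) (D : Ω → ℤ × ℤ → Prop) (n : ℕ) : ℝ :=
  (∫ ω, (Nat.card {f : ZMod (2 * n) → ℤ × ℤ //
    (f 0 = 0 ∧ IsPoly (2 * n) f) ∧ ∀ i, D ω (f i)} : ℝ) ∂ν) / (4 * n * p n)

/-- the probability that moreover `(ext c₁, …, ext c_m) ∈ S`, where the maps and the set may be
random -/
noncomputable def QE (ν : Measure Ω) (D : Ω → ℤ × ℤ → Prop) {m : ℕ} (c : Ω → Fin m → ℤ × ℤ → ℂ)
    (S : Ω → Set (Fin m → ℝ)) (n : ℕ) : ℝ :=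
  (∫ ω, (Nat.card {f : ZMod (2 * n) → ℤ × ℤ //
    ((f 0 = 0 ∧ IsPoly (2 * n) f) ∧ ∀ i, D ω (f i)) ∧
      (fun j => ext (2 * n) (c ω j) f) ∈ S ω} : ℝ) ∂ν) / (4 * n * p n)

/-- random domains -/
def IsDomain (D : Ω → ℤ × ℤ → Prop) : Prop := ∀ x, MeasurableSet {ω | D ω x}

/-- random maps and sets -/
def IsEvent {m : ℕ} (c : Ω → Fin m → ℤ × ℤ → ℂ) (S : Ω → Set (Fin m → ℝ)) : Prop :=
  ∀ (k : ℕ) (f : ZMod (k + 1) → ℤ × ℤ), MeasurableSet {ω | (fun j => ext (k + 1) (c ω j) f) ∈ S ω}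

/-- the size of the error for a random domain -/
noncomputable def errD (ν : Measure Ω) (D : Ω → ℤ × ℤ → Prop) (n : ℕ) : ℝ :=
  √((Real.log (1 / Q ν D n) + Real.log n ^ 2) / n)

open TH966.AK Q78.UW Q78.UW.Po Pool.Agent.H924P

lemma p_eq (n : ℕ) : p n = H981.PP n := rfl

lemma Q_eq (ν : Measure Ω) (D : Ω → ℤ × ℤ → Prop) {n : ℕ} (hn : 1 ≤ n) : Q ν D n = Pl ν D n := by
  unfold Q Pl Fp Q78.UR.FF
  rw [p_eq]
  congr 1
  congr 1
  funext ω
  rw [← root_card' (2 * n) (2 * n - 1) (by omega) (D ω)]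
  rfl

lemma QE_eq (ν : Measure Ω) (D : Ω → ℤ × ℤ → Prop) {m : ℕ} (c : Ω → Fin m → ℤ × ℤ → ℂ)
    (S : Ω → Set (Fin m → ℝ)) {n : ℕ} (hn : 1 ≤ n) : QE ν D c S n =
      EE Q78.UR.Sq.A ν (fun ω => RD (D ω)) (Ev Q294.Av.FcT c (fun ω => {q | q.2 ∈ S ω}))
        (2 * n - 1) / (4 * n * H981.PP n) := by
  unfold QE EE
  rw [p_eq]
  congr 1
  congr 1
  funext ω
  rw [← root_card (2 * n) (2 * n - 1) (by omega) (D ω) (fun m f => Es (c ω) (S ω) m f)
    (Ev Q294.Av.FcT c (fun ω => {q | q.2 ∈ S ω}) ω) (fun k g => Es_eq c S ω k g)]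
  rfl

/-- a region as a random domain -/
lemma N_eq {Λ Λ' : Finset (ℤ × ℤ)} (h : Λ.Nonempty) (hsub : Λ' ⊆ Λ) {n : ℕ} (hn : 1 ≤ n) :
    N Λ' n = Λ.card * @Fp (ℤ × ℤ) ⊤ (uni Λ) (Dr Λ') n / (4 * n) := by
  unfold N Fp
  rw [← reg_card' (2 * n) (2 * n - 1) (by omega) h hsub]
  rfl

lemma NE_eq {Λ Λ' : Finset (ℤ × ℤ)} (h : Λ.Nonempty) (hsub : Λ' ⊆ Λ) {m : ℕ}
    (c : Fin m → ℤ × ℤ → ℂ) (S : Set (Fin m → ℝ)) {n : ℕ} (hn : 1 ≤ n) :
    NE Λ' c S n = Λ.card * @EE (ℤ × ℤ) ⊤ Q78.UR.Sq.A (uni Λ) (fun x => RD (Dr Λ' x))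
      (Ev Q294.Av.FcT (fun x j y => c j (x + y)) (fun _ => {q | q.2 ∈ S})) (2 * n - 1) /
        (4 * n) := by
  unfold NE
  rw [← reg_card (2 * n) (2 * n - 1) (by omega) h hsub (fun m f => Es c S m f) _
    (fun x k g => ?_)]
  · rfl
  · rw [← Es_eq (fun (x : ℤ × ℤ) j y => c j (x + y)) (fun _ => S) x k g]
    rfl

lemma Pl_eq {Λ : Finset (ℤ × ℤ)} (h : Λ.Nonempty) {n : ℕ} (hn : 1 ≤ n) :
    @Pl (ℤ × ℤ) ⊤ (uni Λ) (Dr Λ) n = N Λ n / (Λ.card * p n) := by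
  rw [N_eq h (Finset.Subset.refl _) hn, p_eq]
  unfold Pl
  have h0 : (0 : ℝ) < Λ.card := by exact_mod_cast h.card_pos
  have h1 : (0 : ℝ) < n := by exact_mod_cast hn
  rcases eq_or_ne (H981.PP n) 0 with h2 | h2
  · rw [h2]; simp
  · field_simp

lemma M_eq {Λ : Finset (ℤ × ℤ)} (h : Λ.Nonempty) (c : ℤ × ℤ → ℂ) (q : ℝ) {n : ℕ} (hn : 1 ≤ n) :
    M Λ c q n = @XX (ℤ × ℤ) ⊤ Q78.UR.Sq.A (uni Λ) (fun x => RD (Dr Λ x))
      (fun x w => (max 1 (Q294.Av.dm Q294.Av.FcT (fun y => c (x + y)) w)) ^ q) (2 * n - 1) /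
        @Fp (ℤ × ℤ) ⊤ (uni Λ) (Dr Λ) n := by
  have h0 : (0 : ℝ) < Λ.card := by exact_mod_cast h.card_pos
  have e1 := reg_sum (2 * n) (2 * n - 1) (by omega) h (fun m f => (max 1 (Po.ext m c f)) ^ q)
    (fun x w => (max 1 (Q294.Av.dm Q294.Av.FcT (fun y => c (x + y)) w)) ^ q)
    (fun x k g => by
      rw [← ext_eq k (fun y => c (x + y)) g]
      rfl)
  have e2 := reg_card' (2 * n) (2 * n - 1) (by omega) h (Finset.Subset.refl Λ)
  unfold M Fp
  have e3 : (∑ᶠ f : {f : ZMod (2 * n) → ℤ × ℤ // IsPoly (2 * n) f ∧ ∀ i, f i ∈ Λ},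
      (max 1 (ext (2 * n) c f.1)) ^ q) = _ := e1
  have e4 : (Nat.card {f : ZMod (2 * n) → ℤ × ℤ // IsPoly (2 * n) f ∧ ∀ i, f i ∈ Λ} : ℝ) = _ := e2
  rw [e3, e4, mul_div_mul_left _ _ h0.ne']

lemma W_eq {Λ : Finset (ℤ × ℤ)} (q : ℝ) {n : ℕ} (hn : 2 ≤ n) :
    W Λ q n = M Λ (fun x => ((x.1 : ℝ) : ℂ)) q n := by
  unfold W M
  congr 1
  refine finsum_congr fun f => ?_
  have h : 1 ≤ ext (2 * n) (fun x => ((x.1 : ℝ) : ℂ)) f.1 :=
    one_le_width (2 * n) (by omega) f.1 f.2.1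
  rw [max_eq_right h]
  rfl

lemma lip_fst : Lip (fun x => ((x.1 : ℝ) : ℂ)) := by
  intro x y
  rw [← Complex.ofReal_sub, Complex.norm_real, Real.norm_eq_abs]
  have h : |x.1 - y.1| ≤ |x.1 - y.1| + |x.2 - y.2| := by
    have := abs_nonneg (x.2 - y.2)
    linarith
  calc |(x.1 : ℝ) - y.1| = ((|x.1 - y.1| : ℤ) : ℝ) := by push_cast; rfl
    _ ≤ _ := by exact_mod_cast h

/-- **Main result.** -/
theorem result : ∀ m : ℕ, ∃ (C δ : ℝ) (n₀ : ℕ), 0 < C ∧ 0 < δ ∧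
    (∀ Λ : Finset (ℤ × ℤ), Λ.Nonempty → ∀ n, n₀ ≤ n → Real.exp (-δ * n) * (Λ.card * p n) ≤ N Λ n →
      (∀ q : ℝ, 0 ≤ q → q ≤ m → 1 ≤ W Λ q n ∧
        |W Λ q (n + 1) / W Λ q n - 1| ≤ C * err Λ n ∧
        ∀ c : ℤ × ℤ → ℂ, Lip c → |M Λ c q (n + 1) / M Λ c q n - 1| ≤ C * err Λ n) ∧
      ∀ Λ' ⊆ Λ, ∀ (c : Fin m → ℤ × ℤ → ℂ) (S : Set (Fin m → ℝ)),
        |NE Λ' c S (n + 1) / N Λ (n + 1) - NE Λ' c S n / N Λ n| ≤ C * err Λ n) ∧
    (∀ (Ω : Type) [MeasurableSpace Ω] (ν : Measure Ω) [IsProbabilityMeasure ν]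
      (D : Ω → ℤ × ℤ → Prop), IsDomain D → ∀ n, n₀ ≤ n → Real.exp (-δ * n) ≤ Q ν D n →
      ∀ D' : Ω → ℤ × ℤ → Prop, IsDomain D' → (∀ ω x, D' ω x → D ω x) →
      ∀ (c : Ω → Fin m → ℤ × ℤ → ℂ) (S : Ω → Set (Fin m → ℝ)), IsEvent c S →
        |QE ν D' c S (n + 1) / Q ν D (n + 1) - QE ν D' c S n / Q ν D n| ≤ C * errD ν D n) := by
  intro m
  obtain ⟨C, δ, N1, hC, hδ, hN1, h1⟩ := poly_main m (2 * m) (2 * Q78.UR.Sq.rule.c0) (by positivity)
  refine ⟨C, δ, N1, hC, hδ, ?_, ?_⟩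
  · intro Λ hne n hn hN
    have hn2 : 2 ≤ n := by omega
    have hn0 : (0 : ℝ) < n := by exact_mod_cast (show 0 < n by omega)
    have hcard : (0 : ℝ) < Λ.card := by exact_mod_cast hne.card_pos
    have hp0 : 0 < p n := PP_pos hn2
    let _ : MeasurableSpace (ℤ × ℤ) := ⊤
    have hprob : IsProbabilityMeasure (uni Λ) := uni_prob hne
    have hD : ∀ x, MeasurableSet {ω : ℤ × ℤ | Dr Λ ω x} := fun _ => trivial
    have hpl : Pl (uni Λ) (Dr Λ) n = N Λ n / (Λ.card * p n) := Pl_eq hne (by omega)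
    have hq : Real.exp (-δ * n) ≤ Pl (uni Λ) (Dr Λ) n := by
      rw [hpl, le_div_iff₀ (by positivity)]
      exact hN
    have herrN : err Λ n = √((Real.log (1 / Pl (uni Λ) (Dr Λ) n) + Real.log n ^ 2) / n) := by
      unfold err
      rw [hpl, one_div_div]
    obtain ⟨g1, -, g3, g4⟩ := h1 (ℤ × ℤ) (uni Λ) (Dr Λ) hD n hn hq
    rw [← herrN] at g3 g4
    have hM : ∀ q : ℝ, 0 ≤ q → q ≤ m → ∀ c : ℤ × ℤ → ℂ, Lip c →
        |M Λ c q (n + 1) / M Λ c q n - 1| ≤ C * err Λ n := by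
      intro q hq0 hqm c hc
      obtain ⟨-, g5⟩ := g4
        (fun x w => (max 1 (Q294.Av.dm Q294.Av.FcT (fun y => c (x + y)) w)) ^ q)
        (fun x => fr_of_fw (fw_max (fun y => c (x + y)) (lip_shift hc x) m q hq0 hqm) _)
        (fun w => measurable_from_top)
      rw [M_eq hne c q (by omega), M_eq hne c q (by omega)]
      exact g5
    refine ⟨fun q hq0 hqm => ⟨?_, ?_, fun c hc => hM q hq0 hqm c hc⟩, fun Λ' hsub c S => ?_⟩
    · rw [W_eq q hn2]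
      unfold M
      have hfin : Finite {f : ZMod (2 * n) → ℤ × ℤ // IsPoly (2 * n) f ∧ ∀ i, f i ∈ Λ} := by
        have hne' : NeZero (2 * n) := ⟨by omega⟩
        have := Finite.of_injective
          (fun (f : {f : ZMod (2 * n) → ℤ × ℤ // IsPoly (2 * n) f ∧ ∀ i, f i ∈ Λ}) i =>
            (⟨f.1 i, f.2.2 i⟩ : Λ)) (fun f g h => Subtype.ext (funext fun i =>
              congrArg Subtype.val (congrFun h i)))
        exact this
      have hft := Fintype.ofFinite {f : ZMod (2 * n) → ℤ × ℤ // IsPoly (2 * n) f ∧ ∀ i, f i ∈ Λ}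
      have hNpos : 0 < N Λ n := by
        rw [N_eq hne (Finset.Subset.refl _) (by omega)]
        positivity
      have hc : (0 : ℝ) < Nat.card {f : ZMod (2 * n) → ℤ × ℤ //
          IsPoly (2 * n) f ∧ ∀ i, f i ∈ Λ} := by
        have : (Nat.card {f : ZMod (2 * n) → ℤ × ℤ // IsPoly (2 * n) f ∧ ∀ i, f i ∈ Λ} : ℝ) =
            N Λ n * (4 * n) := by
          unfold N
          field_simp
        rw [this]
        positivity
      rw [one_le_div hc, finsum_eq_sum_of_fintype, Nat.card_eq_fintype_card]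
      have h5 : ∑ _f : {f : ZMod (2 * n) → ℤ × ℤ // IsPoly (2 * n) f ∧ ∀ i, f i ∈ Λ}, (1 : ℝ) =
          (Fintype.card {f : ZMod (2 * n) → ℤ × ℤ // IsPoly (2 * n) f ∧ ∀ i, f i ∈ Λ} : ℝ) := by
        simp
      rw [← h5]
      exact Finset.sum_le_sum fun f _ => Real.one_le_rpow (le_max_left _ _) hq0
    · rw [W_eq q hn2, W_eq q (by omega)]
      exact hM q hq0 hqm _ lip_fst
    · have g5 := g3 (Dr Λ') (fun _ => trivial) (fun ω x h => hsub h)
        (fun x j y => c j (x + y)) (fun _ => {q | q.2 ∈ S}) (fun _ => trivial)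
      rw [NE_eq hne hsub c S (by omega), NE_eq hne hsub c S (by omega),
        N_eq hne (Finset.Subset.refl _) (by omega), N_eq hne (Finset.Subset.refl _) (by omega)]
      have hn1 : (0 : ℝ) < 4 * ((n + 1 : ℕ) : ℝ) := by positivity
      rw [div_div_div_cancel_right₀ hn1.ne', div_div_div_cancel_right₀ (by positivity),
        mul_div_mul_left _ _ hcard.ne', mul_div_mul_left _ _ hcard.ne']
      exact g5
  · intro Ω _ ν _ D hD n hn hQ D' hD' hsub c S hS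
    have hn2 : 2 ≤ n := by omega
    have hn0 : (0 : ℝ) < n := by exact_mod_cast (show 0 < n by omega)
    have herrN : errD ν D n = √((Real.log (1 / Pl ν D n) + Real.log n ^ 2) / n) := by
      unfold errD
      rw [Q_eq ν D (by omega)]
    rw [Q_eq ν D (by omega)] at hQ
    obtain ⟨-, -, g3, -⟩ := h1 Ω ν D hD n hn hQ
    rw [← herrN] at g3
    have g5 := g3 D' hD' (fun ω x h => hsub ω x h) c (fun ω => {q | q.2 ∈ S ω}) (fun w => by
      rcases w with _ | ⟨a, l⟩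
      · have : {ω | Ev Q294.Av.FcT c (fun ω => {q | q.2 ∈ S ω}) ω ([] : List (ℤ × ℤ))} = ∅ := by
          ext ω
          simp [Ev]
        rw [this]
        exact MeasurableSet.empty
      · have h3 := hS l.length (fun i : Fin (l.length + 1) => (a :: l).get i)
        have h4 : List.ofFn (fun i : Fin (l.length + 1) => (a :: l).get i) = a :: l :=
          List.ofFn_get (a :: l)
        have h5 : {ω | (fun j => ext (l.length + 1) (c ω j)
            (fun i : Fin (l.length + 1) => (a :: l).get i)) ∈ S ω} =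
            {ω | Ev Q294.Av.FcT c (fun ω => {q | q.2 ∈ S ω}) ω (a :: l)} := by
          ext ω
          have := Es_eq c S ω l.length (fun i : Fin (l.length + 1) => (a :: l).get i)
          rw [h4] at this
          exact this
        rw [← h5]
        exact h3)
    have hP0 := PP_pos hn2
    have hP1 := PP_pos (show 2 ≤ n + 1 by omega)
    rw [QE_eq ν D' c S (by omega), QE_eq ν D' c S (by omega), Q_eq ν D (by omega),
      Q_eq ν D (by omega)]
    unfold Pl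
    have hn1 : (0 : ℝ) < 4 * ((n + 1 : ℕ) : ℝ) * H981.PP (n + 1) := by positivity
    rw [div_div_div_cancel_right₀ hn1.ne', div_div_div_cancel_right₀ (by positivity)]
    exact g5

end Pool.Agent.Results.MP_c23e5f_co.WidthInRegions
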