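import Pool.Agent.Q294.Sq4
import Pool.Agent.Q294.Sq5

/-!
Mean width of square-lattice self-avoiding polygons: `W_n p_{2n} ≤ K (log n) n^(-1/2) μ^(2n)`, and
two-sided bounds `W_n ≍ n^θ` follow from bounds along sparse lengths or for the partial sums.
-/

namespace Pool.Agent.Results.MP_c23e5f_co.WidthTauberian

open Filter Topology

/-- the number of `n`-step self-avoiding walks on `ℤ²` started at the origin -/
noncomputable def c (n : ℕ) : ℕ :=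
  Nat.card {f : Fin (n + 1) → ℤ × ℤ // f 0 = 0 ∧ Function.Injective f ∧
    ∀ i : Fin n, |(f i.succ).1 - (f i.castSucc).1| + |(f i.succ).2 - (f i.castSucc).2| = 1}

/-- a closed nearest-neighbour loop on `ℤ²` with `m` steps, rooted at the origin and oriented,
that visits no vertex twice -/
def IsLoop (m : ℕ) (f : ZMod m → ℤ × ℤ) : Prop :=
  f 0 = 0 ∧ Function.Injective f ∧
    ∀ i : ZMod m, |(f (i + 1)).1 - (f i).1| + |(f (i + 1)).2 - (f i).2| = 1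

/-- the number of self-avoiding polygons of perimeter `2n` on `ℤ²` up to translation: the number
of rooted oriented loops with `2n` steps, divided by `4n` (the choices of the starting point and
of the orientation) -/
noncomputable def p (n : ℕ) : ℝ :=
  (Nat.card {f : ZMod (2 * n) → ℤ × ℤ // IsLoop (2 * n) f} : ℝ) / (4 * (n : ℝ))

/-- the width (horizontal extent) of a loop -/
noncomputable def width (m : ℕ) (f : ZMod m → ℤ × ℤ) : ℕ :=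
  sSup {w : ℕ | ∃ i j, w = ((f i).1 - (f j).1).natAbs}

/-- the mean width `W_n` of the self-avoiding polygons of perimeter `2 n`: the average of the
width over the rooted oriented polygons. -/
noncomputable def W (n : ℕ) : ℝ :=
  (∑ᶠ f ∈ {f : ZMod (2 * n) → ℤ × ℤ | IsLoop (2 * n) f}, (width (2 * n) f : ℝ)) /
    ({f : ZMod (2 * n) → ℤ × ℤ | IsLoop (2 * n) f}.ncard : ℝ)

lemma c_eq (n : ℕ) : (c n : ℝ) = H981.cr' n := by
  rw [H981.cr'_eq]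
  unfold c H981.C H981.IsSAW
  congr 1
  apply Nat.card_congr
  apply Equiv.subtypeEquivRight
  intro f
  constructor
  · rintro ⟨h0, h1, h2⟩
    exact ⟨h0, h2, h1⟩
  · rintro ⟨h0, h2, h1⟩
    exact ⟨h0, h1, h2⟩

/-- **Theorem.** Let `μ` be the connective constant of `ℤ²`, `p_{2n}` the number of self-avoiding
polygons of perimeter `2n` up to translation and `W_n` their mean width.
(1) There is `K` with `W_n p_{2n} ≤ K (log n) n^(-1/2) μ^(2n)` for all `n ≥ 2`.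
(2) Let `S` be a set of integers that meets `[n, n + C √n]` for some `C` and all large `n`. If
`p_{2n} μ^(-2n) n^(-β)` and `W_n n^(-θ)` are between two positive constants for all large `n ∈ S`,
then they are between two positive constants for all large `n`.
(3) Let `a, b > 0` and `β, θ, s, r` be real. If
`∑_{2≤j≤n} p_{2j} μ^(-2j) = s + a ∫_1^n t^β dt + O(n^(β+1/2))` and
`∑_{2≤j≤n} p_{2j} W_j μ^(-2j) = r + b ∫_1^n t^(β+θ) dt + O(n^(β+θ+1/2))`,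
then `p_{2n} μ^(-2n) n^(-β)` and `W_n n^(-θ)` are between two positive constants for all
large `n`. -/
theorem result : ∃ μ : ℝ, 0 < μ ∧
    Tendsto (fun n : ℕ => (c n : ℝ) ^ ((1:ℝ) / (n : ℝ))) atTop (𝓝 μ) ∧
    (∃ K : ℝ, ∀ n : ℕ, 2 ≤ n → W n * p n ≤ K * (Real.log n / √n) * μ ^ (2 * n)) ∧
    (∀ (S : Set ℕ) (C : ℝ),
      (∀ᶠ n : ℕ in atTop, ∃ k ∈ S, n ≤ k ∧ (k : ℝ) ≤ n + C * √n) →
      ∀ β θ a₁ a₂ b₁ b₂ : ℝ, 0 < a₁ → 0 < b₁ →
      (∀ᶠ n : ℕ in atTop, n ∈ S → a₁ ≤ p n / ((n : ℝ) ^ β * μ ^ (2 * n)) ∧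
        p n / ((n : ℝ) ^ β * μ ^ (2 * n)) ≤ a₂) →
      (∀ᶠ n : ℕ in atTop, n ∈ S → b₁ ≤ W n / (n : ℝ) ^ θ ∧ W n / (n : ℝ) ^ θ ≤ b₂) →
      ∃ c₁ c₂ : ℝ, 0 < c₁ ∧ ∀ᶠ n : ℕ in atTop,
        (c₁ ≤ p n / ((n : ℝ) ^ β * μ ^ (2 * n)) ∧ p n / ((n : ℝ) ^ β * μ ^ (2 * n)) ≤ c₂) ∧
        (c₁ ≤ W n / (n : ℝ) ^ θ ∧ W n / (n : ℝ) ^ θ ≤ c₂)) ∧
    (∀ a b β θ s r C : ℝ, 0 < a → 0 < b →
      (∀ᶠ n : ℕ in atTop, |∑ j ∈ Finset.Icc 2 n, p j / μ ^ (2 * j) - s -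
        a * ∫ t in (1 : ℝ)..(n : ℝ), t ^ β| ≤ C * (n : ℝ) ^ (β + 1 / 2)) →
      (∀ᶠ n : ℕ in atTop, |∑ j ∈ Finset.Icc 2 n, p j * W j / μ ^ (2 * j) - r -
        b * ∫ t in (1 : ℝ)..(n : ℝ), t ^ (β + θ)| ≤ C * (n : ℝ) ^ (β + θ + 1 / 2)) →
      ∃ c₁ c₂ : ℝ, 0 < c₁ ∧ ∀ᶠ n : ℕ in atTop,
        (c₁ ≤ p n / ((n : ℝ) ^ β * μ ^ (2 * n)) ∧ p n / ((n : ℝ) ^ β * μ ^ (2 * n)) ≤ c₂) ∧
        (c₁ ≤ W n / (n : ℝ) ^ θ ∧ W n / (n : ℝ) ^ θ ≤ c₂)) := by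
  refine ⟨H981.mu, H981.mu_pos, ?_, ?_, ?_, ?_⟩
  · simp only [c_eq]
    exact H981.tendsto_root
  · obtain ⟨C, hC⟩ := Q294.Sq4.width_point
    refine ⟨C, fun n hn => ?_⟩
    have h := hC n hn
    unfold Q294.Sq3.zp at h
    rw [if_neg (by omega), div_le_iff₀ (pow_pos H981.mu_pos _)] at h
    have e : W n = Pool.Agent.H739K.MW n := rfl
    have e2 : p n = H981.PP n := rfl
    rw [e, e2, mul_comm]
    exact h
  · intro S C hS β θ a₁ a₂ b₁ b₂ ha hb h1 h2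
    exact Q294.Sq5.bounds (fun n => W n) Q294.Sq3.seq_width S C hS β θ a₁ a₂ b₁ b₂ ha hb h1 h2
  · intro a b β θ s r C ha hb h1 h2
    exact Q294.Sq5.tauber_O (fun n => W n) Q294.Sq3.seq_width a b β θ s r C ha hb h1 h2

end Pool.Agent.Results.MP_c23e5f_co.WidthTauberian
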